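import Pool.Agent.E8helper23.SG.Stm
import Pool.Agent.H692R2.USS.T1

/-!
# Project SG, piece ARC: counting the pairs with the Brun-Titchmarsh inequality
-/

set_option autoImplicit false

namespace Pool.Agent.E8helper13.SG

open Finset
open Pool.Agent.E8helper22.SZ (RealPrim cv tau)
open Pool.Agent.E8helper23.SG

/-- the `n` in `S` such that `n - p` is a prime -/
theorem cnt (S : Finset ℕ) (q' x p : ℕ) (hq : 0 < q') (hx : q' ≤ x)
    (hS : ∀ n ∈ S, n ≤ x ∧ q' ∣ n) :
    ((S.filter (fun n => p ≤ n ∧ (n - p).Prime)).card : ℝ) ≤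
      22 * ((q' : ℝ) / Nat.totient q') * ((x / q' + 1 : ℕ) : ℝ) /
        Real.log ((x / q' + 1 : ℕ) : ℝ) := by
  have hN : 2 ≤ x / q' + 1 := by
    have : 1 ≤ x / q' := (Nat.one_le_div_iff hq).2 hx
    omega
  rcases (S.filter (fun n => p ≤ n ∧ (n - p).Prime)).eq_empty_or_nonempty with h0 | ⟨n0, h0⟩
  · have h1 := Pool.Agent.H692R2.USS.t1_brun_titchmarsh 0 q' (x / q' + 1) hN hq
    rw [h0, card_empty, Nat.cast_zero]
    exact le_trans (Nat.cast_nonneg _) h1
  · have h1 := Pool.Agent.H692R2.USS.t1_brun_titchmarsh ((n0 - p) % q') q' (x / q' + 1) hN hq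
    refine le_trans ?_ h1
    rw [mem_filter] at h0
    have key : ∀ n ∈ S, p ≤ n → (n0 - p) % q' + (n - p) / q' * q' = n - p := by
      intro n hn hp
      have h2 : (n - p) + p ≡ (n0 - p) + p [MOD q'] := by
        rw [Nat.sub_add_cancel hp, Nat.sub_add_cancel h0.2.1]
        exact ((hS n hn).2.modEq_zero_nat).trans ((hS n0 h0.1).2.modEq_zero_nat).symm
      have h3 : n - p ≡ n0 - p [MOD q'] := Nat.ModEq.add_right_cancel' p h2
      have h4 : (n - p) % q' = (n0 - p) % q' := h3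
      rw [← h4]
      exact Nat.mod_add_div' _ _
    have hcard : (S.filter (fun n => p ≤ n ∧ (n - p).Prime)).card ≤
        ((range (x / q' + 1)).filter (fun k => ((n0 - p) % q' + k * q').Prime)).card := by
      refine card_le_card_of_injOn (fun n => (n - p) / q') ?_ ?_
      · intro n hn
        rw [mem_coe, mem_filter] at hn
        rw [mem_coe, mem_filter, mem_range]
        refine ⟨Nat.lt_succ_of_le (Nat.div_le_div_right ((Nat.sub_le _ _).trans (hS n hn.1).1)), ?_⟩
        rw [key n hn.1 hn.2.1]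
        exact hn.2.2
      · intro n hn n' hn' h
        rw [mem_coe, mem_filter] at hn hn'
        have e1 := key n hn.1 hn.2.1
        have e2 := key n' hn'.1 hn'.2.1
        simp only at h
        rw [h, e2] at e1
        have := hn.2.1
        have := hn'.2.1
        omega
    exact_mod_cast hcard

/-- every representation uses a prime with `χ ≠ -1` -/
theorem g_le {q : ℕ} (χ : DirichletCharacter ℂ q) (x n : ℕ) (hn : n ≤ x)
    (h : ∀ p₁ p₂ : ℕ, p₁ + p₂ = n → ¬ (cv χ p₁ = -1 ∧ cv χ p₂ = -1)) :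
    g n ≤ 2 * ((Np χ x).filter (fun p => p ≤ n ∧ (n - p).Prime)).card := by
  classical
  set A := (Np χ x).filter (fun p => p ≤ n ∧ (n - p).Prime) with hA
  have hmem : ∀ p, p ∈ A ↔ (1 ≤ p ∧ p ≤ x) ∧ (p.Prime ∧ cv χ p ≠ -1) ∧ p ≤ n ∧ (n - p).Prime := by
    intro p
    rw [hA, mem_filter, Np, mem_filter, mem_Icc]
    tauto
  have h1 : (range (n + 1)).filter (fun p : ℕ => p.Prime ∧ (n - p).Prime) ⊆
      A ∪ A.image (fun p => n - p) := by
    intro p hp
    rw [mem_filter, mem_range] at hp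
    obtain ⟨hp1, hp2, hp3⟩ := hp
    have hpn : p ≤ n := by omega
    rw [mem_union]
    by_cases hc : cv χ p = -1
    · right
      rw [mem_image]
      refine ⟨n - p, ?_, by omega⟩
      rw [hmem]
      have h2 : cv χ (n - p : ℕ) ≠ -1 := fun h3 => h p (n - p) (by omega) ⟨hc, h3⟩
      have h3 : n - (n - p) = p := by omega
      rw [h3]
      exact ⟨⟨hp3.one_lt.le, by omega⟩, ⟨hp3, h2⟩, by omega, hp2⟩
    · left
      rw [hmem]
      exact ⟨⟨hp2.one_lt.le, by omega⟩, ⟨hp2, hc⟩, hpn, hp3⟩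
  have h2 := (card_le_card h1).trans (card_union_le _ _)
  have h3 : (A.image (fun p => n - p)).card ≤ A.card := card_image_le
  unfold g
  omega

theorem t_ARC : S_ARC := by
  classical
  intro q q' x χ S hq hx hS
  have hS2 : ∀ n ∈ S, n ≤ x ∧ q' ∣ n := fun n hn => ⟨(hS n hn).1, (hS n hn).2.1⟩
  have h1 : ∑ n ∈ S, (g n : ℝ) ≤
      ∑ n ∈ S, 2 * (((Np χ x).filter (fun p => p ≤ n ∧ (n - p).Prime)).card : ℝ) := by
    refine sum_le_sum fun n hn => ?_
    exact_mod_cast g_le χ x n (hS n hn).1 (hS n hn).2.2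
  have h2 : ∑ n ∈ S, ((Np χ x).filter (fun p => p ≤ n ∧ (n - p).Prime)).card =
      ∑ p ∈ Np χ x, (S.filter (fun n => p ≤ n ∧ (n - p).Prime)).card := by
    simp only [card_filter]
    exact sum_comm
  have h3 : ∑ n ∈ S, (((Np χ x).filter (fun p => p ≤ n ∧ (n - p).Prime)).card : ℝ) =
      ∑ p ∈ Np χ x, ((S.filter (fun n => p ≤ n ∧ (n - p).Prime)).card : ℝ) := by
    exact_mod_cast h2
  rw [← mul_sum, h3] at h1
  refine h1.trans ?_
  rw [mul_assoc]
  refine mul_le_mul_of_nonneg_left ?_ (by norm_num)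
  rw [← nsmul_eq_mul, ← sum_const]
  exact sum_le_sum fun p _ => cnt S q' x p hq hx hS2

end Pool.Agent.E8helper13.SG
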